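import Pool.Agent.helper45.SGK.Spec

set_option autoImplicit false

namespace Pool.Agent.SGK

open Finset Pool.Agent.helper38.Neg Pool.Agent.helper55.NT
open Pool.Agent.SGC (Sg SCirc Ext Mv hw RN Solv stA stB)

/-- `Mv v` as a linear map. -/
def COK_L {r t : ℕ} (v : Fin r → Fin 3 → Fin t) : Sg t →ₗ[ZMod 2] (Fin r → ZMod 2) where
  toFun := Mv v
  map_add' := by
    intro x y
    funext e
    simp [Mv, Finset.sum_add_distrib]
  map_smul' := by
    intro a x
    funext e
    simp [Mv, Finset.mul_sum]

theorem COK_fresh {r : ℕ} (S : Finset (Fin r)) (h : S.card < r) : ∃ f : Fin r, f ∉ S := by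
  by_contra hcon
  have h1 : S = Finset.univ := Finset.eq_univ_iff_forall.2 fun f => not_not.1 fun hf => hcon ⟨f, hf⟩
  rw [h1, Finset.card_univ, Fintype.card_fin] at h
  exact lt_irrefl _ h

theorem COK (hEXV : Pool.Agent.SGC.EXV_stmt) (hSPN : Pool.Agent.SGC.SPN_stmt) (hAVE : Pool.Agent.SGC.AVE_stmt) : COK_stmt := by
  intro n s r c t C ρ H v J hc hr hH hEQV hINP hbal hsep
  have hS := fun g => hSPN r t c v (H g) hc (by omega) (fun γ _ => hbal γ) (hsep g)
  choose U hU1 hU2 hU3 using hS
  -- invariance under `H g`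
  have inv : ∀ g, ∀ γ ∈ H g, ∀ b : Fin r → ZMod 2,
      C.val (J (b + Mv v γ)) g = C.val (J b) g ∧
        ((C.kids g).filter fun h => C.val (J (b + Mv v γ)) h = true).card =
          ((C.kids g).filter fun h => C.val (J b) h = true).card := by
    intro g γ hγ b
    obtain ⟨π, hπ, hg⟩ := hH g γ hγ
    have h1 := hEXV n (Fin s) C (ρ γ) π hπ (J b) g
    rw [hEQV g γ hγ b, hg] at h1
    exact h1
  have key : ∀ k : ℕ, ∀ g, C.rank g < k → ∀ f, f ∉ U g → ∀ b : Fin r → ZMod 2,
      C.val (J (b + Pi.single f 1)) g = C.val (J b) g := by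
    intro k
    induction k with
    | zero => intro g hg; exact absurd hg (Nat.not_lt_zero _)
    | succ k ih =>
      intro g hg f hf b
      rcases hl : C.lab g with _ | p
      · -- a gate
        rw [C.val_none _ g hl, C.val_none _ g hl]
        refine congrArg (C.fn g) ?_
        refine hAVE r (Fin s) (C.kids g) (fun h b => C.val (J b) h) ((H g).map (COK_L v)) f
          ?_ ?_ b
        · intro b m hm
          obtain ⟨γ, hγ, rfl⟩ := Submodule.mem_map.1 hm
          exact (inv g γ hγ b).2
        · intro h hh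
          obtain ⟨f', hf'⟩ := COK_fresh (U g ∪ U h)
            (lt_of_le_of_lt (Finset.card_union_le _ _) (by have := hU1 g; have := hU1 h; omega))
          rw [Finset.mem_union, not_or] at hf'
          refine ⟨f', ?_, fun b => ?_⟩
          · have hw1 : ∑ e, (Pi.single f 1 + Pi.single f' 1 : Fin r → ZMod 2) e = 0 := by
              simp only [Pi.add_apply, Finset.sum_add_distrib, Finset.sum_pi_single', Finset.mem_univ,
                if_true]
              decide
            have hw2 : ∀ e ∈ U g, (Pi.single f 1 + Pi.single f' 1 : Fin r → ZMod 2) e = 0 := by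
              intro e he
              have h1 : e ≠ f := fun h => hf (h ▸ he)
              have h2 : e ≠ f' := fun h => hf'.1 (h ▸ he)
              simp [Pi.single_eq_of_ne h1, Pi.single_eq_of_ne h2]
            obtain ⟨γ, hγ, hw⟩ := hU3 g _ hw1 hw2
            exact Submodule.mem_map.2 ⟨γ, hγ, hw⟩
          · have h1 := C.acyc g h hh
            exact ih h (by omega) f' hf'.2 b
      · -- an input gate
        rw [C.val_some _ g p hl, C.val_some _ g p hl]
        have h1 : ∃ γ ∈ H g, Mv v γ f ≠ 0 := by
          by_contra hcon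
          exact hf (hU2 g f fun γ hγ => not_not.1 fun h => hcon ⟨γ, hγ, h⟩)
        obtain ⟨γ, hγ, hγf⟩ := h1
        obtain ⟨π, hπ, hg'⟩ := hH g γ hγ
        have h2 := hπ.1 g
        rw [hg', hl, Option.map_some] at h2
        exact hINP g γ hγ p f b (Option.some.inj h2).symm hγf
  obtain ⟨f, hf⟩ := COK_fresh (U C.out) (by have := hU1 C.out; omega)
  refine ⟨f, fun b => ?_⟩
  exact (key (C.rank C.out + 1) C.out (Nat.lt_succ_self _) f hf b).symm

end Pool.Agent.SGK
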